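import Pool.Agent.T3h73.BK

/-!
# The conjecture of Bloch and Kato on the Abel-Jacobi map, `p = 2`, for the motives
`h ^ 1 (J) (1) ⊗ ρ` of hyperelliptic curves (and of intersections of two quadrics) and ALL rational Artin
representations `ρ` of the Galois groups of 2-extensions

Let `F` be a number field and `g ≥ 1`. We consider the curves `C : y ^ 2 = f(x)`, `f` a monic polynomial
of degree `2 g + 1` over the ring of integers without term of degree `2 g`, ordered by the height. Let
`J` be the Jacobian of `C`. For a finite Galois extension `M` of `F` and an integral representation `ρ`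
of `Gal(M/F)` of rank `r` let `A = J ⊗ ℤ ^ r`, an abelian variety over `F` of dimension `g r`. The motive
`h ^ 1 (A) (1)` is `h ^ 1 (J) (1) ⊗ [ρ]`, where `[ρ]` is the Artin motive of `ρ`; it is polarized, of
weight `-1`, its 2-adic realization is `V_2 J ⊗ ρ`, and its Chow group is
`A(F) ⊗ ℚ = (J(M) ⊗ ρ) ^ {Gal(M/F)}`.

Theorem. Let `f₀` be a residue class modulo an integer `m > 0` which is separable modulo the primes
dividing `m` and irreducible modulo those which divide 2 and `m`, let `p` be a polynomial over `F` and
`δ > 0`. There are a finite set `S` of primes, prime to `2 m`, and a constant `c > 0` such that for all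
large `B` at least the proportion `c` of all the polynomials `f` of height at most `B` have all the
following properties: `f = f₀` modulo `m`; the shape of `f` at all the archimedean places is `δ`-near to
that of `p`; the equation `y ^ 2 = f(x)` is minimal and `f` is irreducible;

* (`AllArtinTwists f S`) for ALL the extensions `M` admissible for `f` and `S` and ALL the integral
  representations `ρ` of `Gal(M/F)` multiplication by two is bijective on `A(F)` (so that, by the
  theorem of Mordell and Weil, `A(F)` is finite and `A(F) ⊗ ℚ_2 = 0`), and `H ^ 1_f (F, V_2 J ⊗ ρ) = 0`;
* (`ManyCyclic f S`) for every `k ≥ 1` infinitely many of these `M` are cyclic over `F` of degree `2 ^ k`.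

Here `M` is admissible if it is Galois over `F` of degree a power of two, all primes of `F` above 2 and
in `S` split completely in `M`, `f` is irreducible modulo the primes of `F` which are ramified in `M`,
and every real place of `F` at which `f` has more than one root extends to a real place of `M`. Every
rational representation of `Gal(M/F)` has an integral form. So the statement of the problem (`p = 2`)
holds for all the motives `h ^ 1 (J) (1) ⊗ [ρ]`, with both sides zero: for `J` over `F`, over all the
fields between `F` and `M` (`ρ` a permutation representation), and for all the isotypic parts of these,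
for example the parts on which a cyclic group `Gal(M/F)` of order `2 ^ k` acts by the characters of
order `2 ^ k`.

By the theorem of Reid (over arbitrary fields: Desale-Ramanan, Donagi, Wang; not formalized) these are
also the motives `h ^ (2 g - 1) (X) (g) ⊗ [ρ]` of the smooth complete intersections `X` of two quadrics
in the projective space of dimension `2 g + 1` whose discriminant form is given by `f`.

`H ^ 1_f (F, V_2 A)` is the group of the classes of the continuous cocycles with values in
`V_2 A = {(x_n) : x_n of 2-power order, x_(n + 1) ^ 2 = x_n}` whose restriction to the completion at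
every finite place `v` is in the image of `A(F_v) ⊗ ℚ_2`; by Bloch and Kato this is their local condition
for abelian varieties (for `v` not above 2 both are zero).

Proof. By the theorem of `MP_a43263_nt/LatticeTwistsOverTwoExtensions` the 2-primary part of the
Tate-Shafarevich group of `A` is zero and `A(F)` is uniquely 2-divisible. The component `c_n` of a
cocycle of `H ^ 1_f` is then a class of 2-power order which is trivial at the finite places; at a real
place it is twice the class of `c_(n + 1)`, so it is trivial; so `c_n` is a coboundary, and the choices
are compatible because `A(F)` is uniquely 2-divisible (`Pool/Agent/N844/QF/Hf.lean`).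

The definitions are in `Pool.Agent.T3h73.BKDef`, `Pool.Agent.T3h73.Def` and
`Pool.Agent.N874.Jac.Def`.
-/

set_option autoImplicit false

open Polynomial IsDedekindDomain NumberField
open Pool.Agent.T3h73.LatTw
open Pool.Agent.N874.Jac (Gal)

/-- **Bloch-Kato Selmer groups of the Artin twists over 2-extensions.** -/
theorem Pool.Agent.Results.MP_009fd8_ag.ArtinTwistsQuadricPencils.result
    (F : Type) [Field F] [NumberField F] (g : ℕ) (hg : 1 ≤ g)
    -- the residue class of `f₀` modulo `m` and the archimedean region
    (m : ℕ) (f₀ : (𝓞 F)[X]) (h₀ : ResidueClass g m f₀) (p : F[X]) (δ : ℝ) (hδ : 0 < δ) :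
    ∃ S : Finset (HeightOneSpectrum (𝓞 F)),
      (∀ v ∈ S, (2 : 𝓞 F) ∉ v.asIdeal ∧ (m : 𝓞 F) ∉ v.asIdeal) ∧
      ∃ c : ℝ, 0 < c ∧ ∃ B₀ : ℕ, ∀ B ≥ B₀, {f : (𝓞 F)[X] | Poly g B f}.Finite ∧
        c * ({f : (𝓞 F)[X] | Poly g B f}.ncard : ℝ) ≤
          ({f : (𝓞 F)[X] | Poly g B f ∧ (∀ j, (m : 𝓞 F) ∣ f.coeff j - f₀.coeff j) ∧
            Near g p δ f ∧ Minimal g f ∧ Irreducible (toField f) ∧
            -- all admissible extensions `M` and all representations of `Gal(M/F)`
            AllArtinTwists f S ∧
            -- infinitely many admissible extensions are cyclic of degree `2 ^ k`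
            ManyCyclic f S}.ncard : ℝ) :=
  Pool.Agent.T3h73.final_bk F g hg m f₀ h₀ p δ hδ
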