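import Pool.Agent.T3h73.Fin2

/-!
# The 2-primary part of `Ш` for all the twists of powers of hyperelliptic Jacobians by the integral
representations of the Galois groups of 2-extensions, for a positive proportion of all the odd
hyperelliptic curves over every number field

Let `F` be a number field and `g ≥ 1`. We consider the curves `y ^ 2 = f(x)`, `f` a monic polynomial of
degree `2 g + 1` over the ring of integers without term of degree `2 g`, ordered by the height (the
coefficient of `x ^ j` has absolute values at most `B ^ (2 g + 1 - j)`). Let `J` be the Jacobian of the
curve. For a finite set `S` of primes a finite Galois extension `M` of `F` in the separable closure is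
called admissible for `f` and `S` (`Admissible f S M`) if

* its degree is a power of two;
* all primes of `F` above 2 and all primes in `S` split completely in `M`;
* modulo the primes which are ramified in `M` the polynomial `f` is irreducible;
* every real place of `F` at which `f` has more than one root extends to a real place of `M`.

A homomorphism `ρ` from the absolute Galois group of `F` to the integral `r × r` matrices which is
trivial on the automorphisms over `M` (`ρ` is an arbitrary integral representation of `Gal(M/F)`) gives
the abelian variety `A = J ⊗ ℤ ^ r` over `F` of dimension `g r`, a form of `J ^ r`: the twists of `J` by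
quadratic characters, the abelian varieties `J ⊗ ℤ[ζ]` given by the characters of order `2 ^ k`, the
Weil restrictions of `J` from all the fields between `F` and `M`, and so on.

Theorem. Let `f₀` be a residue class modulo an integer `m > 0` which is separable modulo the primes
dividing `m` and irreducible modulo those which divide 2 and `m`, let `p` be a polynomial over `F` and
`δ > 0`. There are a finite set `S` of primes, prime to `2 m`, and a constant `c > 0` such that for all
large `B` at least the proportion `c` of all the polynomials `f` of height at most `B` have all the
following properties: `f = f₀` modulo `m`; the shape of `f` at all the archimedean places is `δ`-near to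
that of `p`; the equation `y ^ 2 = f(x)` is minimal and `f` is irreducible;

* (`AllTwists f S`) for ALL extensions `M` admissible for `f` and `S` and ALL integral representations `ρ` of `Gal(M/F)`
  multiplication by two is bijective on `A(F)` (so that `A(F)` is finite of odd order, by the theorem of
  Mordell and Weil), and the 2-primary part of the Tate-Shafarevich group of `A` over `F` is zero;
* (`ManyCyclic f S`) for every `k ≥ 1` infinitely many of these `M` are cyclic over `F` of degree `2 ^ k`.

The restriction of scalars of `A` from `F` to `ℚ` is an abelian variety over `ℚ` of dimension
`g r [F : ℚ]` with the same Tate-Shafarevich group.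

Proof. (1) By a descent it is enough that the 2-Selmer group of `J` over `M` in the explicit form of
Cassels and Schaefer is trivial. For a positive proportion of the `f` this Selmer group is trivial over
`F` (the method of the starting library: distribution of self-dual lattices with a self-adjoint operator,
auxiliary primes in `S` and twists), and here this is done with the given congruences and the given
archimedean region. The Selmer group over `M` is a module over a 2-group, and its invariants come from
the Selmer group over `F`: this uses the parity at the only prime over a ramified prime, the completions
at the split primes, and the real places. (2) From `M` to the lattices: `A` is `J ^ r` over `M`, so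
`H^0(Gal(M/F), -)` and `H^1` of the uniquely 2-divisible group `A(M)` are treated by the norm, and a
class over `F` which becomes trivial over `M` is zero because `H^1(Gal(M/F), A(M)) = 0`. (3) The cyclic
extensions are the subfields of degree `2 ^ k` of `F(ζ_q)` for the primes `q` such that the norms of the
primes above 2 and in `S` are `2 ^ k`-th powers modulo `q`, `q = 1` modulo `2 ^ (k + 1)`, and `f` is
irreducible modulo all primes above `q`; by the theorem of Chebotarev there are infinitely many of them,
since we prescribe `f` to be irreducible modulo the primes above a prime number which splits completely
in `F`.

The definitions are in `Pool.Agent.T3h73.Def` and `Pool.Agent.N874.Jac.Def`.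
-/

set_option autoImplicit false

open Polynomial IsDedekindDomain NumberField
open Pool.Agent.T3h73.LatTw
open Pool.Agent.N874.Jac (Gal)

/-- **Lattice twists over 2-extensions.** -/
theorem Pool.Agent.Results.MP_a43263_nt.LatticeTwistsOverTwoExtensions.result
    (F : Type) [Field F] [NumberField F] (g : ℕ) (hg : 1 ≤ g)
    -- the residue class of `f₀` modulo `m` and the archimedean region
    (m : ℕ) (f₀ : (𝓞 F)[X]) (h₀ : ResidueClass g m f₀) (p : F[X]) (δ : ℝ) (hδ : 0 < δ) :
    ∃ S : Finset (HeightOneSpectrum (𝓞 F)),
      (∀ v ∈ S, (2 : 𝓞 F) ∉ v.asIdeal ∧ (m : 𝓞 F) ∉ v.asIdeal) ∧
      ∃ c : ℝ, 0 < c ∧ ∃ B₀ : ℕ, ∀ B ≥ B₀, {f : (𝓞 F)[X] | Poly g B f}.Finite ∧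
        c * ({f : (𝓞 F)[X] | Poly g B f}.ncard : ℝ) ≤
          ({f : (𝓞 F)[X] | Poly g B f ∧ (∀ j, (m : 𝓞 F) ∣ f.coeff j - f₀.coeff j) ∧
            Near g p δ f ∧ Minimal g f ∧ Irreducible (toField f) ∧
            -- all admissible extensions `M` and all integral representations of `Gal(M/F)`
            AllTwists f S ∧
            -- infinitely many admissible extensions are cyclic of degree `2 ^ k`
            ManyCyclic f S}.ncard : ℝ) :=
  Pool.Agent.T3h73.final F g hg m f₀ h₀ p δ hδ
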